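import Pool.Agent.Y678.RG.Prod

set_option autoImplicit false

/-!
# Record prime-free intervals around a prime multiple of every integer, and around all `a p + b`

The starting result `MP_c853c5_nt.RecordGapsAtShiftedPrimes` (helper101) has prime-free intervals of record
length around `a p + b`, `p` prime, for multipliers `a` up to a power of `log X`. Here `a` is an arbitrary
integer up to a power of `X`; only the prime factors of `a` below `log X` have to be few. The classes modulo
the primes `p ≤ (log X) / 1000` dividing `a` are given up, the large prime factors of `a` are excluded from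
the primes that kill the survivors of the sieve (`Pool/Agent/Y678/RG`, adapted from `Pool/Agent/TH101/RG`).
-/

namespace Pool.Agent.Results.MP_c853c5_nt.EveryMultiplier

/-- The record scale `f(x) = log x (log₂ x)² log₄ x / (log₃ x)²` (iterated natural logarithms). -/
noncomputable def f (x : ℝ) : ℝ :=
  Real.log x * (Real.log (Real.log x)) ^ 2 * Real.log (Real.log (Real.log (Real.log x))) /
    (Real.log (Real.log (Real.log x))) ^ 2

/-- For all `J`, `D`, `A₀` and squarefree `d` there is `c > 0` such that for all large `X` and ALL integers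
`a ≠ 0`, `b` with `|a|, |b| ≤ X^D`, such that `a` has at most `D (log log X)²` different prime factors up to
`log X`, the sum of whose inverses is at most `A₀`, and for all `h` prime to `d`: at least `X^(7/8)` primes
`p ∈ (X, 3X]`, `p ≡ h (mod d)`, are such that for all integers `i`, `j` with `1 ≤ |i|, |j| ≤ J` and every prime
`q ≠ p` one has `|j q - i (a p + b)| > c f(X)`.

With `b = 0`, `i = j = 1`: every such integer `a`, `|a| ≥ 2`, has at least `X^(7/8)` multiples `a p`, `p ∈ (X, 3X]` prime,
in the middle of a prime-free interval of record length. The condition on the prime factors of `a` holds for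
instance if `a` has at most `K` different prime factors up to `log X`, `K` fixed; there is no condition on
the other prime factors of `a`. -/
theorem result (J D : ℕ) (A₀ : ℝ) (d : ℕ) (hd : Squarefree d) : ∃ c : ℝ, 0 < c ∧ ∃ X₀ : ℝ, ∀ X : ℝ, X₀ ≤ X →
    ∀ a b : ℤ, a ≠ 0 → |(a : ℝ)| ≤ X ^ D → |(b : ℝ)| ≤ X ^ D →
    (∀ s : Finset ℕ, (∀ p ∈ s, p.Prime ∧ (p : ℤ) ∣ a ∧ (p : ℝ) ≤ Real.log X) →
      (s.card : ℝ) ≤ D * (Real.log (Real.log X)) ^ 2 ∧ ∑ p ∈ s, (1 : ℝ) / p ≤ A₀) →
    ∀ h : ℕ, h.Coprime d →
    X ^ (7 / 8 : ℝ) ≤ ({p : ℕ | p.Prime ∧ X < p ∧ (p : ℝ) ≤ 3 * X ∧ p ≡ h [MOD d] ∧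
      ∀ i j : ℤ, 1 ≤ |i| → |i| ≤ J → 1 ≤ |j| → |j| ≤ J → ∀ q : ℕ, q.Prime → q ≠ p →
        c * f X < |((j * q - i * (a * p + b) : ℤ) : ℝ)|}.ncard : ℝ) :=
  Pool.Agent.Y678.RG.multB J D A₀ d hd

end Pool.Agent.Results.MP_c853c5_nt.EveryMultiplier
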