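import Pool.Agent.Y866.TR.Fin
import Pool.Agent.Y866.PP.Prog2
import Pool.Agent.Y677.RSZ.Top

/-!
# Progressions of primes each of which lies in the middle of a prime-free interval of Rankin's size

The primes of one class modulo the product `W` of nearly all primes up to `log X / 1000`. The class is such
that a window of Rankin's size around the primes of the class contains only few integers without prime factors
in `W` (covering of helper398 and helper312 in the starting files); a proportion of the primes of the class is
alone in its window (the fundamental lemma in the class, team library `Pool.Agent.TH423.SH`, and the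
Bombieri-Vinogradov theorem relative to `W`, `Pool.Agent.H378R2`). Szemerédi's theorem relative to the primes of a
class to a large modulus (`Pool.Agent.Y677.RSZ.eng_all`, of the team) gives the progressions.
From Mathlib: `Real.log`: natural logarithm; `Fin r`: a set with `r` elements.
-/

set_option autoImplicit false

namespace Pool.Agent.Results.MP_c853c5_nt.IsolatedProgressions

/-- There is an absolute constant `c > 0` with the following property. For all `k`, `r ≥ 1` and all large `X`,
however the positive integers are coloured with `r` colours, there is a progression `p, p + D, ..., p + (k - 1) D`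
of primes of `(X, 3 X]` of one colour, with `1 ≤ D ≤ X ^ (1/100)`, such that every prime different from its
member `p + j D` is at distance at least `c log X log₂ X log₄ X / (log₃ X)²` from it, `j = 0, ..., k - 1`. -/
theorem result : ∃ c : ℝ, 0 < c ∧ ∀ k r : ℕ, 0 < r → ∃ X₀ : ℝ, ∀ X : ℝ, X₀ ≤ X →
    ∀ χ : ℕ → Fin r, ∃ p D : ℕ, 1 ≤ D ∧ (D : ℝ) ≤ X ^ (1 / 100 : ℝ) ∧ X < p ∧
      ((p + (k - 1) * D : ℕ) : ℝ) ≤ 3 * X ∧ ∀ j < k, (p + j * D).Prime ∧ χ (p + j * D) = χ p ∧
        ∀ m : ℕ, m.Prime → m ≠ p + j * D →
          c * (Real.log X * Real.log (Real.log X) * Real.log (Real.log (Real.log (Real.log X))) /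
            Real.log (Real.log (Real.log X)) ^ 2) ≤ |(m : ℝ) - ((p + j * D : ℕ) : ℝ)| :=
  Pool.Agent.Y866.TR.isolated (Pool.Agent.Y866.PP.prog_of_eng Pool.Agent.Y677.RSZ.eng_all)

end Pool.Agent.Results.MP_c853c5_nt.IsolatedProgressions
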