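import Pool.Agent.Y831.RC5.Abund5

set_option autoImplicit false

namespace Pool.Agent.Results.MP_c853c5_nt.LongWindowFrequency

/-- the integers `n` with `M ≤ n` and `n + F ≤ M + X` such that each of the integers
`n + k`, `1 ≤ k ≤ F`, has a prime factor `p ≤ y` -/
def Starts (M X F y : ℝ) : Set ℤ :=
  {n : ℤ | M ≤ n ∧ (n : ℝ) + F ≤ M + X ∧
    ∀ k : ℕ, 1 ≤ k → (k : ℝ) ≤ F → ∃ p : ℕ, p.Prime ∧ (p : ℝ) ≤ y ∧ (p : ℤ) ∣ n + k}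

theorem result : ∀ c δ : ℝ, 0 < c → c < 1 / 2 → 0 < δ →
    ∃ T₀ X₀ : ℝ, ∀ X : ℝ, X₀ ≤ X → ∀ T : ℝ, T₀ ≤ T → T ≤ Real.log X → ∀ M : ℝ,
      X * Real.exp (-T) ≤
        ((Starts M X (c * (Real.log X * Real.log T)) (X ^ δ)).ncard : ℝ) :=
  fun c δ hc hc2 hδ => Pool.Agent.Y831.RC.abund5 c δ hc hc2 hδ

end Pool.Agent.Results.MP_c853c5_nt.LongWindowFrequency
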