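import Pool.Agent.Y830.PR.Fin

/-!
# Primes in translates of a finite set, weighted by sums of squares

Let `w` be a nonnegative weight to which the Bombieri-Vinogradov theorem applies (level `Q` at most
`√X / (log X)^B`, coefficients and total mass off by powers of `log X` at most) and which is a sum of
squares of functions of level `Q`, for example a weight of Selberg, Goldston-Pintz-Yıldırım or
Maynard-Tao. All known large gaps between primes (and the bounded ones) are found with such weights,
after the small primes have been dealt with by the choice of residue classes. Let `H` be any set of at most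
`(log X)^K` integers in `[0, X]`, and let `S` be a set of primes that contains all primes up to `y`
and at most `y` others, such that the elements of `H` are incongruent modulo all other primes up
to `Q`. (One can take `y = (log X)^(2K+1)` and the primes which are at most `y` or divide a difference of
two elements of `H`.)

An integer near `X` free of the primes of `S` is prime with probability
`chance X S = 1 / (log X ∏_{p ∈ S} (1 - 1/p))`. The theorem: the `w`-mean of the number of primes
`n + h`, `h ∈ H`, is `1 ± ε` times the expected number, given the number of the elements free of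
`S`, up to an error of at most `C log (2 + min (|H|, log Q / log y))`, where `C` depends on `ε`
only. In particular the gain `log k` of Maynard and Tao for `k`-tuples is optimal, up to the
constant, among all these weights, and a weight can be prime-free on `n + H` only if on average
it leaves at most `C' (log X / log y) log (log X / log y)` elements free of `S`.

Proof. For the primes the theorem of Bombieri and Vinogradov (files of helper829) gives the number
of elements free of all primes up to `Q`, in the model of residue classes. There the weight is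
split into the residue classes modulo the product of `S`, and the primes outside `S` are removed
one by one in increasing order; the loss at a prime `p` is the part of the weight that depends on `p`,
and these parts are bounded by the level inequality of helper835. If `|H|` is less than
`log Q / log y` only the primes above `Q^(1/|H|)` are used. The number of elements free of `S` is
transferred from the model to `(X, 2X]` with Brun's pure sieve.
-/

set_option autoImplicit false

open Finset

namespace Pool.Agent.Results.MP_c853c5_nt.SquareWeightsAndPrimes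

/-- the weight `w(n) = ∑_{d ≤ Q} c_d(n mod d)`, a function of level `Q` -/
noncomputable def weight (Q : ℕ) (c : ℕ → ℕ → ℝ) (n : ℕ) : ℝ := ∑ d ∈ Icc 1 Q, c d (n % d)

/-- `s(d) = ∑_{a mod d} |c_d(a)|` -/
noncomputable def size (c : ℕ → ℕ → ℝ) (d : ℕ) : ℝ := ∑ a ∈ range d, |c d a|

/-- `w` is a finite sum of squares of functions of level `Q` -/
def SumOfSquares (Q : ℕ) (w : ℕ → ℝ) : Prop :=
  ∃ (J : ℕ) (g : ℕ → ℕ → ℕ → ℝ), ∀ n, w n = ∑ j ∈ range J, weight Q (g j) n ^ 2

/-- the hypotheses on the weight `w` with the coefficients `c`: it is a sum of squares of functions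
of level `Q`, `Q^2 (log X)^B ≤ X`, `∑_{d ≤ Q} s(d)^2 / d ≤ (log X)^K` and
`∑_{X < n ≤ 2X} w(n) ≥ X / (log X)^K` -/
def Good (K B X Q : ℕ) (c : ℕ → ℕ → ℝ) : Prop :=
  SumOfSquares Q (weight Q c) ∧ (Q : ℝ) ^ 2 * Real.log X ^ B ≤ X ∧
    ∑ d ∈ Icc 1 Q, size c d ^ 2 / d ≤ Real.log X ^ K ∧
    X / Real.log X ^ K ≤ ∑ n ∈ Ioc X (2 * X), weight Q c n

/-- `S` consists of the primes up to `y` and of at most `y` further primes, all of them at most
`Q`, and the elements of `H` are incongruent modulo every prime `p ≤ Q` outside `S` -/
def Separates (Q y : ℕ) (S H : Finset ℕ) : Prop :=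
  (∀ p ∈ S, p.Prime ∧ p ≤ Q) ∧ (∀ p : ℕ, p.Prime → p ≤ y → p ∈ S) ∧
    (S.filter (fun p => y < p)).card ≤ y ∧
    ∀ p : ℕ, p.Prime → p ≤ Q → p ∉ S → Set.InjOn (fun h => h % p) (H : Set ℕ)

/-- the number of `h` in `H` such that `n + h` is prime -/
noncomputable def primes (H : Finset ℕ) (n : ℕ) : ℝ := ((H.filter (fun h => (n + h).Prime)).card : ℝ)

/-- the number of `h` in `H` such that `n + h` is divisible by no prime of `S` -/
noncomputable def unsifted (S H : Finset ℕ) (n : ℕ) : ℝ :=
  ((H.filter (fun h => ∀ p ∈ S, ¬ p ∣ n + h)).card : ℝ)

/-- the probability that an integer near `X` free of the primes of `S` is prime: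
`1 / (log X ∏_{p ∈ S} (1 - 1/p))` -/
noncomputable def chance (X : ℕ) (S : Finset ℕ) : ℝ :=
  1 / (Real.log X * ∏ p ∈ S, (1 - 1 / (p : ℝ)))

/-- For every `ε > 0` there is `C` such that for every `K` there are `B` and `X₀` with the following
property. Let `X ≥ X₀`, let the weight `w` with the coefficients `c` be good, let `3 ≤ y ≤ Q` with
`B log y log log X ≤ log X`, let `H` be a set of at most `(log X)^K` integers in `[0, X]`, and let
`S` be a set of primes that separates `H`. Then the sum over `X < n ≤ 2X` of `w(n)` times the number
of the primes `n + h`, `h ∈ H`, differs from `chance X S` times the sum of `w(n)` times the number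
of the `n + h` free of the primes of `S` by at most `ε` times the latter plus
`C log (2 + min (|H|, log Q / log y))` times the sum of `w(n)`. -/
theorem result (ε : ℝ) (hε : 0 < ε) : ∃ C : ℝ, 0 < C ∧ ∀ K : ℕ, ∃ B X₀ : ℕ,
    ∀ (X Q y : ℕ) (S H : Finset ℕ) (c : ℕ → ℕ → ℝ), X₀ ≤ X → 3 ≤ y → y ≤ Q →
      B * Real.log y * Real.log (Real.log X) ≤ Real.log X → Good K B X Q c → Separates Q y S H →
      (∀ h ∈ H, h ≤ X) → (H.card : ℝ) ≤ Real.log X ^ K →
      |∑ n ∈ Ioc X (2 * X), weight Q c n * primes H n -
        chance X S * ∑ n ∈ Ioc X (2 * X), weight Q c n * unsifted S H n| ≤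
      ε * (chance X S * ∑ n ∈ Ioc X (2 * X), weight Q c n * unsifted S H n) +
        C * Real.log (2 + min (H.card : ℝ) (Real.log Q / Real.log y)) *
          ∑ n ∈ Ioc X (2 * X), weight Q c n := by
  classical
  obtain ⟨C, hC, h⟩ := Pool.Agent.Y830.PR.main ε hε
  refine ⟨C, hC, fun K => ?_⟩
  obtain ⟨B, X₀, h1⟩ := h K
  refine ⟨B, X₀, fun X Q y S H c hX hy hyQ hB hG hS hHX hHK => ?_⟩
  obtain ⟨⟨J, g, hg⟩, hQ, hc, hm⟩ := hG
  obtain ⟨hS1, hS2, hS3, hS4⟩ := hS
  have h2 := h1 X hX Q y S H c J g hy hyQ hQ hB hS1 hS2 hS3 hS4 hHX hHK hg hc hm
  have e : ∀ n, unsifted S H n = ((Pool.Agent.Y830.SQ.SV H S n).card : ℝ) := by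
    intro n
    unfold unsifted Pool.Agent.Y830.SQ.SV
    congr 2
  simp only [e]
  exact h2

end Pool.Agent.Results.MP_c853c5_nt.SquareWeightsAndPrimes
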